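import Pool.Agent.H97R2.LPB.Props

/-! The energy constant is at least `2.1` (helper406). -/

set_option autoImplicit false

open Polynomial Filter Topology MeasureTheory Pool.Agent.H337R2 Pool.Agent.LP

namespace Pool.Agent.LPB

namespace H406aux

theorem GG_neg (z : ℝ) : GG (-z) = GG z := by
  unfold GG
  rw [Real.log_neg_eq_log, neg_sq]

theorem GG_zero : GG 0 = 0 := by
  unfold GG
  norm_num

theorem g1 : GG (15 / 16) = 225 / 512 * (Real.log 3 + Real.log 5 - 4 * Real.log 2) - 675 / 1024 := by
  have h : Real.log (15 / 16) = Real.log 3 + Real.log 5 - 4 * Real.log 2 := by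
    rw [show (15 / 16 : ℝ) = 3 * 5 / 2 ^ 4 by norm_num, Real.log_div (by norm_num) (by norm_num),
      Real.log_mul (by norm_num) (by norm_num), Real.log_pow]
    norm_num
  unfold GG
  rw [h]
  ring

theorem g2 : GG (33 / 16) =
    1089 / 512 * (Real.log 3 + Real.log 11 - 4 * Real.log 2) - 3267 / 1024 := by
  have h : Real.log (33 / 16) = Real.log 3 + Real.log 11 - 4 * Real.log 2 := by
    rw [show (33 / 16 : ℝ) = 3 * 11 / 2 ^ 4 by norm_num, Real.log_div (by norm_num) (by norm_num),
      Real.log_mul (by norm_num) (by norm_num), Real.log_pow]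
    norm_num
  unfold GG
  rw [h]
  ring

theorem g3 : GG (15 / 8) = 225 / 128 * (Real.log 3 + Real.log 5 - 3 * Real.log 2) - 675 / 256 := by
  have h : Real.log (15 / 8) = Real.log 3 + Real.log 5 - 3 * Real.log 2 := by
    rw [show (15 / 8 : ℝ) = 3 * 5 / 2 ^ 3 by norm_num, Real.log_div (by norm_num) (by norm_num),
      Real.log_mul (by norm_num) (by norm_num), Real.log_pow]
    norm_num
  unfold GG
  rw [h]
  ring

theorem g4 : GG 3 = 9 / 2 * Real.log 3 - 27 / 4 := by
  unfold GG
  ring

theorem g5 : GG (63 / 16) =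
    3969 / 512 * (2 * Real.log 3 + Real.log 7 - 4 * Real.log 2) - 11907 / 1024 := by
  have h : Real.log (63 / 16) = 2 * Real.log 3 + Real.log 7 - 4 * Real.log 2 := by
    rw [show (63 / 16 : ℝ) = 3 ^ 2 * 7 / 2 ^ 4 by norm_num,
      Real.log_div (by norm_num) (by norm_num),
      Real.log_mul (by norm_num) (by norm_num), Real.log_pow, Real.log_pow]
    norm_num
  unfold GG
  rw [h]
  ring

theorem g6 : GG 6 = 18 * (Real.log 2 + Real.log 3) - 27 := by
  have h : Real.log 6 = Real.log 2 + Real.log 3 := by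
    rw [show (6 : ℝ) = 2 * 3 by norm_num, Real.log_mul (by norm_num) (by norm_num)]
  unfold GG
  rw [h]
  ring

end H406aux

open H406aux in
theorem V2_energy : S_Q := by
  have h2 := abs_le.mp (lnA_spec 2 (by norm_num) (by norm_num))
  have h3 := abs_le.mp (lnA_spec 3 (by norm_num) (by norm_num))
  have h5 := abs_le.mp (lnA_spec 5 (by norm_num) (by norm_num))
  have h7 := abs_le.mp (lnA_spec 7 (by norm_num) (by norm_num))
  have h11 := abs_le.mp (lnA_spec 11 (by norm_num) (by norm_num))
  have e2 : lnA 2 = 693147180560 := by decide +kernel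
  have e3 : lnA 3 = 1098612288761 := by decide +kernel
  have e5 : lnA 5 = 1609437912428 := by decide +kernel
  have e7 : lnA 7 = 1945910149055 := by decide +kernel
  have e11 : lnA 11 = 2397895272516 := by decide +kernel
  rw [e2] at h2
  rw [e3] at h3
  rw [e5] at h5
  rw [e7] at h7
  rw [e11] at h11
  push_cast at h2 h3 h5 h7 h11
  unfold S_Q Qx en
  norm_num
  rw [GG_neg, GG_neg, GG_neg, GG_zero, g1, g2, g3, g4, g5, g6]
  linarith [h2.1, h2.2, h3.1, h3.2, h5.1, h5.2, h7.1, h7.2, h11.1, h11.2]

end Pool.Agent.LPB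

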